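import Pool.Agent.W953.SR.LinHard

/-!
# Linear languages: span programs with `log n - C sqrt (log n)` NOT gates are not enough

All linear languages are in L if and only if NL = L. A computation in rounds asks tests without
negations; every round depends on the answers of the earlier rounds, and the `cost` is the maximum
of the product of the numbers (number of tests of the round) + 1, so that `t` tests one after the
other (`t` NOT gates) have cost `2 ^ t`. The tests are span programs over any fields, undirected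
switching networks (the monotone model of L) and comparator circuits.

(A): There is a monotone pushdown automaton with one reversal (so its language is linear) such that
computations in rounds of cost `M` and polynomial size do not decide the words of length `n`, as
long as `M 2 ^ (C sqrt (log n)) ≤ n`; so `log n - C sqrt (log n)` NOT gates do not help.

(B): The same for reachability in a layered digraph with `n` edges (the input says which edges are
present), even on the inputs with between `k` and `k + M 2 ^ (C sqrt (log n))` ones, for every `k`.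

In both cases an explicit form for larger sizes is proved.
-/

set_option autoImplicit false

namespace Pool.Agent.Results.MP_cb9e82_lc.SpanProgramsOnSlices

open Pool.Agent.W953.SP Pool.Agent.W953.SR

/-- the tests: monotone span programs over any fields, monotone undirected switching networks,
monotone comparator circuits -/
inductive Test (I : Type) : Type 1
  | span (P : MSP I)
  | net (N : Net I)
  | cmp (C : Cmp I)

/-- acceptance -/
def Test.Acc {I : Type} : Test I → (I → Bool) → Prop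
  | .span P, x => P.Acc x
  | .net N, x => N.Acc x
  | .cmp C, x => C.val x = true

/-- the number of rows, labelled edges, wires -/
def Test.size {I : Type} : Test I → ℕ
  | .span P => P.size
  | .net N => N.size
  | .cmp C => C.wires

/-- the tests with their acceptance and size -/
def tests (I : Type) : Tests (Test I) I where
  acc := Test.Acc
  size := Test.size

/-- every computation in rounds of cost at most `M` in which the tests on every path have total size
less than `s` disagrees with `f` on some input in `dom` -/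
def Hard {I : Type} (f : (I → Bool) → Prop) (dom : (I → Bool) → Prop) (M s : ℕ) : Prop :=
  ∀ p : Prog (Test I), p.cost ≤ M → p.load (tests I) < s →
    ∃ x, dom x ∧ ¬ (p.Acc (tests I) x ↔ f x)

/-- the number of ones of an input -/
def ones {n : ℕ} (x : Fin n → Bool) : ℕ := (Finset.univ.filter (fun i => x i = true)).card

/-- the automaton accepts the word that is given by `x` -/
def Word {Sig : Type} (A : Pool.Agent.H589R2.MNL.PDA (Sig → Bool)) {n : ℕ}
    (x : Fin n × Sig → Bool) : Prop :=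
  A.Accepts (List.ofFn fun i σ => x (i, σ))

lemma tests_mono (I : Type) : Prog.Mono (tests I) := by
  intro P x y hxy h
  cases P with
  | span P => exact MSP.Acc.mono hxy h
  | net N => exact Pool.Agent.W953.SP.Net.Acc.mono hxy h
  | cmp C => exact C.val_mono hxy h

lemma tests_rank (I : Type) : RankTests (tests I) := by
  intro P
  cases P with
  | span P =>
    refine ⟨P.F, inferInstance, fun X Y _ _ _ _ A α β U _ hU hβ m hm => ?_⟩
    exact P.rank_le A α β U hU hβ m hm
  | net N =>
    refine ⟨ℚ, inferInstance, fun X Y _ _ _ _ A α β U _ hU hβ m hm => ?_⟩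
    exact (N.toMSP ℚ).rank_le A α β U (fun x hx => (N.toMSP_acc ℚ _).mpr (hU x hx))
      (fun y h => hβ y ((N.toMSP_acc ℚ _).mp h)) m hm
  | cmp C => exact wireTests_rank I C

/-- numbers -/
lemma numbers (c n : ℕ) (hn : 2 ≤ n) : ∃ d, 1 ≤ d ∧
    9 * d + 4 ≤ 22 * (c + 1) * Nat.sqrt (Nat.log 2 n) ∧ n ^ c < 2 ^ (d ^ 2 + 2 * d) := by
  obtain ⟨L, hL⟩ : ∃ L, L = Nat.log 2 n := ⟨_, rfl⟩
  obtain ⟨s, hs⟩ : ∃ s, s = Nat.sqrt L := ⟨_, rfl⟩
  have hL1 : 1 ≤ L := by
    rw [hL]
    exact Nat.log_pos (by norm_num) hn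
  have hs1 : 1 ≤ s := by
    rw [hs]
    exact Nat.sqrt_pos.mpr hL1
  have hLs : L + 1 ≤ (s + 1) ^ 2 := by
    rw [hs]
    exact Nat.lt_succ_sqrt' L
  have hnL : n ≤ 2 ^ (L + 1) := by
    rw [hL]
    exact (Nat.lt_pow_succ_log_self (by norm_num) n).le
  refine ⟨(c + 1) * (s + 1), Nat.mul_pos (by omega) (by omega), ?_, ?_⟩
  · rw [← hL, ← hs]
    have h1 : (c + 1) * (s + 1) ≤ (c + 1) * (2 * s) := Nat.mul_le_mul_left _ (by omega)
    have h2 : s ≤ (c + 1) * s := Nat.le_mul_of_pos_left s (by omega)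
    calc 9 * ((c + 1) * (s + 1)) + 4 ≤ 9 * ((c + 1) * (2 * s)) + 4 * ((c + 1) * s) := by omega
      _ = 22 * (c + 1) * s := by ring
  · calc n ^ c ≤ (2 ^ (L + 1)) ^ c := Nat.pow_le_pow_left hnL c
      _ = 2 ^ ((L + 1) * c) := by rw [← pow_mul]
      _ < 2 ^ (((c + 1) * (s + 1)) ^ 2 + 2 * ((c + 1) * (s + 1))) := by
        apply Nat.pow_lt_pow_right (by norm_num)
        have h1 : (L + 1) * c ≤ (s + 1) ^ 2 * (c + 1) ^ 2 := by
          refine Nat.mul_le_mul hLs ?_
          have : c + 1 ≤ (c + 1) ^ 2 := Nat.le_self_pow (by norm_num) _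
          omega
        have h2 : 0 < (c + 1) * (s + 1) := Nat.mul_pos (by omega) (by omega)
        have h3 : ((c + 1) * (s + 1)) ^ 2 = (s + 1) ^ 2 * (c + 1) ^ 2 := by ring
        omega

/-- reachability, explicit form -/
theorem reach (d M U n : ℕ) (hU : M * (2 ^ (5 * d) + 2 ^ (2 * d)) ≤ U) (hn : U ≤ n) :
    ∃ D : Host n, D.Layered ∧ ∀ k, k + U ≤ n →
      Hard D.Conn (fun x => k ≤ ones x ∧ ones x ≤ k + U) M (2 ^ (d ^ 2 + 2 * d)) := by
  obtain ⟨r, rfl⟩ : ∃ r, n = U + r := ⟨n - U, by omega⟩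
  obtain ⟨D, h1, h2⟩ := reach_hard.{1} d M U r hU
  refine ⟨D, h1, fun k hk p hcost hload => ?_⟩
  obtain ⟨x, h3, h4, h5⟩ := h2 _ (tests (Fin (U + r))) (tests_rank _) (tests_mono _) k (by omega) p
    hcost hload
  exact ⟨x, ⟨h3, h4⟩, h5⟩

/-- **Linear languages and reachability need almost `log n` NOT gates.** -/
theorem result :
    (∃ (Sig : Type) (_ : Fintype Sig) (A : Pool.Agent.H589R2.MNL.PDA (Sig → Bool)), A.OneTurn ∧
      (∀ q a b z, a ≤ b → A.δ q a z ⊆ A.δ q b z) ∧
      (∀ d M n : ℕ, 1 ≤ d → M * 2 ^ (9 * d + 4) ≤ n →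
        Hard (Word A (n := n)) (fun _ => True) M (2 ^ (d ^ 2 + 2 * d))) ∧
      ∀ c : ℕ, ∃ C : ℕ, ∀ M n : ℕ, 2 ≤ n → M * 2 ^ (C * Nat.sqrt (Nat.log 2 n)) ≤ n →
        Hard (Word A (n := n)) (fun _ => True) M (n ^ c)) ∧
    (∀ d M U n : ℕ, M * (2 ^ (5 * d) + 2 ^ (2 * d)) ≤ U → U ≤ n →
      ∃ D : Host n, D.Layered ∧ ∀ k, k + U ≤ n →
        Hard D.Conn (fun x => k ≤ ones x ∧ ones x ≤ k + U) M (2 ^ (d ^ 2 + 2 * d))) ∧
    ∀ c : ℕ, ∃ C : ℕ, ∀ M n U : ℕ, 2 ≤ n → M * 2 ^ (C * Nat.sqrt (Nat.log 2 n)) ≤ U → U ≤ n →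
      ∃ D : Host n, D.Layered ∧ ∀ k, k + U ≤ n →
        Hard D.Conn (fun x => k ≤ ones x ∧ ones x ≤ k + U) M (n ^ c) := by
  have hlin : ∀ d M n : ℕ, 1 ≤ d → M * 2 ^ (9 * d + 4) ≤ n →
      Hard (Word Pool.Agent.H589R2.MNL.lmach (n := n)) (fun _ => True) M
        (2 ^ (d ^ 2 + 2 * d)) := by
    intro d M n hd hn p hcost hload
    obtain ⟨W, hW⟩ := lin_hard d M n hd hn (Test (Fin n × Pool.Agent.H589R2.MNL.Lt)) (tests _)
      (tests_rank _) (tests_mono _) p hcost hload
    exact ⟨fun y => W y.1 y.2, trivial, hW⟩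
  refine ⟨⟨Pool.Agent.H589R2.MNL.Lt, inferInstance, Pool.Agent.H589R2.MNL.lmach,
    Pool.Agent.H589R2.MNL.lmach_oneTurn,
    fun q a b z h => Pool.Agent.H589R2.MNL.lmach_mono q a b z h, hlin, fun c => ?_⟩,
    fun d M U n hU hn => reach d M U n hU hn, fun c => ?_⟩
  · refine ⟨22 * (c + 1), fun M n hn hM p hcost hload => ?_⟩
    obtain ⟨d, h1, h2, h3⟩ := numbers c n hn
    refine hlin d M n h1 (le_trans (Nat.mul_le_mul_left M ?_) hM) p hcost (by omega)
    exact Nat.pow_le_pow_right (by norm_num) h2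
  · refine ⟨22 * (c + 1), fun M n U hn hM hU => ?_⟩
    obtain ⟨d, h1, h2, h3⟩ := numbers c n hn
    have h8 : 2 ^ (5 * d) + 2 ^ (2 * d) ≤ 2 ^ (22 * (c + 1) * Nat.sqrt (Nat.log 2 n)) := by
      have h6 : 2 ^ (2 * d) ≤ 2 ^ (5 * d) := Nat.pow_le_pow_right (by norm_num) (by omega)
      have h7 : 2 ^ (5 * d + 1) ≤ 2 ^ (22 * (c + 1) * Nat.sqrt (Nat.log 2 n)) :=
        Nat.pow_le_pow_right (by norm_num) (by omega)
      rw [pow_succ] at h7
      omega
    obtain ⟨D, h4, h5⟩ := reach d M U n ((Nat.mul_le_mul_left M h8).trans hM) hU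
    exact ⟨D, h4, fun k hk p hcost hload => h5 k hk p hcost (by omega)⟩

end Pool.Agent.Results.MP_cb9e82_lc.SpanProgramsOnSlices
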